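import Pool.Agent.Q264.HS.Itin

/-! `x_{n+1} = x_{n-2}/(B x_n + x_{n-2})`: for every sufficiently large `B` there is a positive
solution that converges neither to the equilibrium nor to a periodic solution. -/

namespace Pool.Agent.Results.MP_9297ae_an.TropicalHorseshoe

open Filter Topology Set Pool.Agent.Q264.HS

/-- Solutions of `x_{n+1} = x_{n-2}/(B x_n + x_{n-2})`, the sequence `(x_n)_{n ≥ -2}` being
indexed from `0` (`x n` stands for `x_{n-2}`): nonnegative, all denominators positive. -/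
def IsSolution (B : ℝ) (x : ℕ → ℝ) : Prop :=
  (∀ n, 0 ≤ x n) ∧ ∀ n, 0 < B * x (n + 2) + x n ∧ x (n + 3) = x n / (B * x (n + 2) + x n)

/-- For every sufficiently large `B` some positive solution converges neither to the equilibrium
`1/(B+1)` nor to any periodic solution. -/
theorem result : ∃ B₀ : ℝ, 0 < B₀ ∧ ∀ B : ℝ, B₀ ≤ B → ∃ x : ℕ → ℝ,
    IsSolution B x ∧ (∀ n, 0 < x n) ∧
    ¬ Tendsto x atTop (𝓝 (1 / (B + 1))) ∧
    ∀ p : ℕ → ℝ, IsSolution B p → (∃ k, 1 ≤ k ∧ ∀ n, p (n + k) = p n) →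
      ¬ Tendsto (fun n => x n - p n) atTop (𝓝 0) := by
  refine ⟨Real.exp 1000000, Real.exp_pos _, ?_⟩
  intro B hB0
  have hB : 1 < B := by
    have : (1 : ℝ) < Real.exp 1000000 := by
      have := Real.add_one_lt_exp (x := 1000000) (by norm_num)
      linarith
    linarith
  have h0 : (0 : ℝ) < B := by linarith
  have hL : (1000000 : ℝ) ≤ Real.log B := by
    have := Real.log_le_log (Real.exp_pos _) hB0
    rwa [Real.log_exp] at this
  have hη : Real.log 2 / Real.log B ≤ 1 / 1000000 := by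
    rw [div_le_div_iff₀ (by linarith) (by norm_num)]
    have := Real.log_two_lt_d9
    nlinarith
  have hη0 : 0 ≤ Real.log 2 / Real.log B :=
    div_nonneg (Real.log_nonneg (by norm_num)) (by linarith)
  obtain ⟨v, hv, hvI⟩ := exists_orbit (Gm_cont hB) hη0 hη (Gm_low hB) (Gm_upp hB) itin_step
  have hpos : ∀ n, 0 < B ^ (-(v n)) := fun n => Real.rpow_pos_of_pos h0 _
  have hkey : ∀ p : ℕ → ℝ, (∃ k, 1 ≤ k ∧ ∀ n, p (n + k) = p n) →
      ¬ Tendsto (fun n => B ^ (-(v n)) - p n) atTop (𝓝 0) := by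
    rintro p ⟨k, hk, hp⟩ hcon
    have hd : B ^ (-(3.288 : ℝ)) < B ^ (-(3.27 : ℝ)) :=
      Real.rpow_lt_rpow_of_exponent_lt hB (by norm_num)
    obtain ⟨n0, hn0⟩ := (Metric.tendsto_atTop.1 hcon)
      ((B ^ (-(3.27 : ℝ)) - B ^ (-(3.288 : ℝ))) / 2) (by linarith)
    obtain ⟨j, hj1, hj2, hj3⟩ := itin_run k n0
    have hk' : 0 < k := hk
    have hrun := tm_run hj2
    have e1 := hvI j
    have e2 := hvI (j + k)
    have hj0 : itin j = false := by simpa using hj2 0 hk'
    rw [hj0] at e1
    rw [hj3, hrun] at e2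
    simp only [lft, rgt, if_true, Bool.false_eq_true, if_false] at e1 e2
    have hper : ∀ m n, p (n + m * k) = p n := by
      intro m
      induction m with
      | zero => intro n; simp
      | succ m ih =>
        intro n
        have : n + (m + 1) * k = (n + m * k) + k := by ring
        rw [this, hp, ih]
    have hge : n0 ≤ tm itin j + 1 := by have := tm_ge itin j; omega
    have d1 := hn0 (tm itin j + 1) hge
    have d2 := hn0 (tm itin j + 1 + 27 * k) (by omega)
    rw [hper] at d2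
    have e3 : tm itin j + 27 * k + 1 = tm itin j + 1 + 27 * k := by ring
    rw [e3] at e2
    have f1 : B ^ (-(3.27 : ℝ)) ≤ B ^ (-(v (tm itin j + 1))) :=
      Real.rpow_le_rpow_of_exponent_le hB.le (by linarith [e1.2])
    have f2 : B ^ (-(v (tm itin j + 1 + 27 * k))) ≤ B ^ (-(3.288 : ℝ)) :=
      Real.rpow_le_rpow_of_exponent_le hB.le (by linarith [e2.1])
    rw [Real.dist_eq, sub_zero, abs_lt] at d1 d2
    linarith [d1.1, d1.2, d2.1, d2.2]
  refine ⟨fun n => B ^ (-(v n)), ⟨fun n => (hpos n).le, ?_⟩, hpos, ?_, ?_⟩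
  · intro n
    have e1 : B * B ^ (-(v (n + 2))) + B ^ (-(v n)) =
        B ^ (-(v n)) * (1 + B ^ (1 + v n - v (n + 2))) := by
      rw [mul_add, mul_one, ← Real.rpow_add h0]
      have : B * B ^ (-(v (n + 2))) = B ^ (1 + -(v (n + 2))) := by
        rw [Real.rpow_add h0, Real.rpow_one]
      rw [this]
      have : -(v n) + (1 + v n - v (n + 2)) = 1 + -(v (n + 2)) := by ring
      rw [this]; ring
    have hy := Real.rpow_pos_of_pos h0 (1 + v n - v (n + 2))
    refine ⟨?_, ?_⟩
    · dsimp only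
      rw [e1]; exact mul_pos (hpos n) (by linarith)
    · dsimp only
      rw [e1, hv n]
      have e2 : B ^ (-(Gm B (1 + v n - v (n + 2)))) = (1 + B ^ (1 + v n - v (n + 2)))⁻¹ := by
        rw [Real.rpow_neg h0.le]
        congr 1
        have : Gm B (1 + v n - v (n + 2)) = Real.logb B (1 + B ^ (1 + v n - v (n + 2))) := rfl
        rw [this, Real.rpow_logb h0 hB.ne' (by linarith)]
      rw [e2]
      have := (hpos n).ne'
      field_simp
  · intro hcon
    apply hkey (fun _ => 1 / (B + 1)) ⟨1, le_rfl, fun _ => rfl⟩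
    have := hcon.sub_const (1 / (B + 1))
    simpa using this
  · intro p _ hper
    exact hkey p hper

end Pool.Agent.Results.MP_9297ae_an.TropicalHorseshoe
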